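import Pool.Agent.helper34.MO.SpecB

open Complex Finset

namespace Pool.Agent.MO

/-- enumeration of the index set of a determinant -/
theorem DID_enum (F : ℕ → ℕ → ℂ) (n : ℕ) (g : Fin n → ℕ) (hg : Function.Injective g)
    (S : Finset ℕ) (hS : S = Finset.univ.image g) :
    detS F S = (Matrix.of fun i j : Fin n => F (g i) (g j)).det := by
  subst hS
  have hb : Function.Bijective
      (fun i : Fin n => (⟨g i, Finset.mem_image_of_mem g (Finset.mem_univ i)⟩ :
        (Finset.univ.image g : Finset ℕ))) := by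
    constructor
    · intro i j hij
      exact hg (by simpa using hij)
    · rintro ⟨y, hy⟩
      rcases Finset.mem_image.1 hy with ⟨i, -, hi⟩
      exact ⟨i, by simpa using hi⟩
  rw [detS, ← Matrix.det_submatrix_equiv_self (Equiv.ofBijective _ hb)]
  rfl

theorem DID : DID_stmt := by
  intro A B m C hC hC1
  have h4 : ((4 : ℂ) - (C : ℂ)) ≠ 0 := by
    intro h
    have h2 : (4 : ℂ) = (C : ℂ) := sub_eq_zero.1 h
    have h3 : (4 : ℝ) = C := by exact_mod_cast h2
    linarith
  have e5 := DID_enum (G5 A B C 1 1 m (-I) (-I) (-I) (-I) (-I) (-I)) 5 (fun i => i.1)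
    Fin.val_injective {0, 1, 2, 3, 4} (by decide)
  have e4 := DID_enum (G5 A B C 1 1 m (-I) (-I) (-I) (-I) (-I) (-I)) 3 ![0, 1, 4]
    (by decide) {0, 1, 4} (by decide)
  have e3 := DID_enum (G5 A B C 1 1 m (-I) (-I) (-I) (-I) (-I) (-I)) 3 ![0, 1, 3]
    (by decide) {0, 1, 3} (by decide)
  have f3 : detS (G5 A B C 1 1 m (-I) (-I) (-I) (-I) (-I) (-I)) {0, 1, 3} = (A * B - m ^ 2) + B := by
    rw [e3, Matrix.det_fin_three]
    simp only [Matrix.of_apply, Matrix.cons_val_zero, Matrix.cons_val_one, Matrix.cons_val_two,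
      Matrix.tail_cons, Matrix.head_cons, G5]
    ring_nf
    simp only [I_sq]
    ring
  have f4 : detS (G5 A B C 1 1 m (-I) (-I) (-I) (-I) (-I) (-I)) {0, 1, 4} = (A * B - m ^ 2) + A := by
    rw [e4, Matrix.det_fin_three]
    simp only [Matrix.of_apply, Matrix.cons_val_zero, Matrix.cons_val_one, Matrix.cons_val_two,
      Matrix.tail_cons, Matrix.head_cons, G5]
    ring_nf
    simp only [I_sq]
    ring
  have f5 : detS (G5 A B C 1 1 m (-I) (-I) (-I) (-I) (-I) (-I)) {0, 1, 2, 3, 4} =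
      (2 + C) * (A * B) - (2 + C) * m ^ 2 - 4 * I * m + 2 + (A + B) * (C + 2 + 2 * I) + C + 4 * I := by
    rw [e5]
    have hM : (Matrix.of fun i j : Fin 5 => G5 A B C 1 1 m (-I) (-I) (-I) (-I) (-I) (-I) i.1 j.1) =
        !![A, m, -I, -I, 0; m, B, -I, 0, -I; -I, -I, (C : ℂ), -I, -I; -I, 0, -I, 1, 0;
          0, -I, -I, 0, 1] := by
      ext i j
      fin_cases i <;> fin_cases j <;> rfl
    rw [hM]
    have I3 : (I : ℂ) ^ 3 = -I := by rw [pow_succ, I_sq]; ring
    simp [Matrix.det_succ_row_zero, Fin.sum_univ_succ, Fin.succAbove]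
    ring_nf
    simp only [I_sq, I3]
    ring
  rw [f5, f3, f4]
  field_simp
  ring_nf
  simp only [I_sq]
  ring

end Pool.Agent.MO
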