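import Pool.Agent.helper34.MO.SpecB

open Complex Finset

namespace Pool.Agent.MO

theorem N1_acc (hPHE : PHE_stmt) (hACG : ACG_stmt) (A B m : ℂ) (C U : ℝ) (ac bc au cu : ℂ)
    (h : Acc2 A B m) (hC : 0 < C) (hU : 0 < U) (h1 : ac.re = 0) (h2 : bc.re = 0) (h3 : au.re = 0)
    (h4 : cu.re = 0) : AccS (G5 A B C U 1 m ac bc au cu 0 0) {0, 1, 2, 3} := by
  have hP : Psd2 (0 : ℂ) 0 0 := by simp [Psd2]
  have h0 := hACG A B m 0 0 0 C U 1 ac bc au cu 0 0 h hP hC hU one_pos h1 h2 h3 h4 rfl rfl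
  have h5 := hPHE.2.2.2.2 _ {0, 1, 2, 3} {0, 1, 2, 3, 4} (by decide) h0
  simpa using h5

theorem N1_elim (hPHS : PHS_stmt) (hPHE : PHE_stmt) (hEV : EV_stmt) (hA2P : A2P_stmt)
    (hACG : ACG_stmt) (A B m : ℂ) (C U : ℝ) (ac bc au cu : ℂ)
    (h : Acc2 A B m) (hC : 0 < C) (hU : 0 < U) (h1 : ac.re = 0) (h2 : bc.re = 0) (h3 : au.re = 0)
    (h4 : cu.re = 0) :
    Acc2 (A - m ^ 2 / B) (C - bc ^ 2 / B) (ac - m * bc / B) ∧
    phS (G5 A B C U 1 m ac bc au cu 0 0) {0, 1, 2} =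
      arg B + ph2 (A - m ^ 2 / B) (C - bc ^ 2 / B) (ac - m * bc / B) ∧
    phS (G5 A B C U 1 m ac bc au cu 0 0) {0, 1, 2, 3} =
      arg B + ph3 (A - m ^ 2 / B) (C - bc ^ 2 / B) U (ac - m * bc / B) au cu := by
  have hacc := N1_acc hPHE hACG A B m C U ac bc au cu h hC hU h1 h2 h3 h4
  set G := G5 A B C U 1 m ac bc au cu 0 0 with hG
  have g11 : G 1 1 = B := rfl
  have s00 : sch G 1 0 0 = A - m ^ 2 / B := by
    show A - m * m / B = A - m ^ 2 / B
    ring
  have s22 : sch G 1 2 2 = C - bc ^ 2 / B := by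
    show (C : ℂ) - bc * bc / B = C - bc ^ 2 / B
    ring
  have s02 : sch G 1 0 2 = ac - m * bc / B := rfl
  have s20 : sch G 1 2 0 = ac - m * bc / B := by
    show ac - bc * m / B = ac - m * bc / B
    ring
  have s33 : sch G 1 3 3 = U := by
    show (U : ℂ) - 0 * 0 / B = U
    simp
  have s03 : sch G 1 0 3 = au := by
    show au - m * 0 / B = au
    simp
  have s30 : sch G 1 3 0 = au := by
    show au - 0 * m / B = au
    simp
  have s23 : sch G 1 2 3 = cu := by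
    show cu - bc * 0 / B = cu
    simp
  have s32 : sch G 1 3 2 = cu := by
    show cu - 0 * bc / B = cu
    simp
  have i3 : ({0, 1, 2, 3} : Finset ℕ) = insert 1 {0, 2, 3} := by decide
  have i2 : ({0, 1, 2} : Finset ℕ) = insert 1 {0, 2} := by decide
  have hacc2 : AccS G {0, 1, 2} := hPHE.2.2.2.2 _ _ _ (by decide) hacc
  obtain ⟨-, a3, b3, -⟩ := hPHS G {0, 2, 3} 1 (by decide) (i3 ▸ hacc)
  obtain ⟨-, a2, b2, -⟩ := hPHS G {0, 2} 1 (by decide) (i2 ▸ hacc2)
  have e2 := hEV.1 (sch G 1) 0 2 (by decide) (by rw [s02, s20]) a2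
  have e3 := hEV.2 (sch G 1) 0 2 3 (by decide) (by decide) (by decide) (by rw [s02, s20])
    (by rw [s03, s30]) (by rw [s23, s32]) a3
  rw [s00, s22, s02] at e2
  rw [s00, s22, s33, s02, s03, s23] at e3
  refine ⟨?_, ?_, ?_⟩
  · have := (hA2P.2 (sch G 1) 0 2 (by decide) (by rw [s02, s20])).1 a2
    rwa [s00, s22, s02] at this
  · rw [i2, b2, g11, e2]
  · rw [i3, b3, g11, e3]

/-- nonnegative real increments keep `Acc2` -/
theorem N1_incr (hA2P : A2P_stmt) (A B m : ℂ) (p q : ℝ) (h : Acc2 A B m) (hp : 0 ≤ p) (hq : 0 ≤ q) :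
    Acc2 (A + p) (B + q) m := by
  have hP : Psd2 (p : ℂ) q 0 := by
    refine ⟨by simpa using hp, by simpa using hq, ?_⟩
    simpa using mul_nonneg hp hq
  have := hA2P.1 A B m p q 0 h hP
  rwa [add_zero] at this

theorem N1_good (f : ℝ) (A B m : ℂ) (p q : ℝ) (h : Good2 f A B m) (hp : 0 ≤ p) (hq : 0 ≤ q) :
    Good2 f (A + p) (B + q) m := by
  intro p' q' hp' hq'
  have := h (p + p') (q + q') (by linarith) (by linarith)
  push_cast at this
  rwa [← add_assoc, ← add_assoc] at this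

theorem N1 (hPHS : PHS_stmt) (hPHE : PHE_stmt) (hEV : EV_stmt) (hA2P : A2P_stmt)
    (hACG : ACG_stmt) (hS1 : S1_stmt) (hS3 : S3_stmt) : N1_stmt := by
  intro s p q T a lt' hA hG hGI hG3 ha hp hq haT hlt
  have hT : 0 < T := lt_of_lt_of_le ha haT
  have reI : (-I : ℂ).re = 0 := by simp
  have hAq : ∀ p' : ℝ, 0 ≤ p' → Acc2 (s.A + p + p') (s.B + q) s.m := by
    intro p' hp'
    have h1 := N1_incr hA2P _ _ _ (p + p') q hA (by linarith) hq
    push_cast at h1
    rwa [← add_assoc] at h1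
  have c1 : ∀ C : ℝ, (C : ℂ) - (-I) ^ 2 / (s.B + q) = C + 1 / (s.B + q) := by
    intro C
    rw [neg_sq, I_sq]
    ring
  have c2 : (-I : ℂ) - s.m * (-I) / (s.B + q) = -I + I * s.m / (s.B + q) := by ring
  have c3 : (0 : ℂ) - s.m * (-I) / (s.B + q) = I * s.m / (s.B + q) := by ring
  refine ⟨?_, ?_, ?_⟩
  · have h1 := (N1_elim hPHS hPHE hEV hA2P hACG (s.A + p + (0 : ℝ)) (s.B + q) s.m T 1 (-I) (-I) 0 0
      (hAq 0 le_rfl) hT one_pos reI reI rfl rfl).1
    rw [c1, c2, ofReal_zero, add_zero] at h1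
    exact h1
  · intro p' q' hp' hq'
    have hC : 0 < T + q' := by linarith
    have h1 := (N1_elim hPHS hPHE hEV hA2P hACG (s.A + p + p') (s.B + q) s.m (T + q') 1 (-I) (-I) 0 0
      (hAq p' hp') hC one_pos reI reI rfl rfl).2.1
    have hacc := N1_acc hPHE hACG (s.A + p + p') (s.B + q) s.m (T + q') 1 (-I) (-I) 0 0
      (hAq p' hp') hC one_pos reI reI rfl rfl
    have hacc2 := hPHE.2.2.2.2 _ {0, 1, 2} _ (by decide) hacc
    have h2 := hEV.2 _ 0 1 2 (by decide) (by decide) (by decide) rfl rfl rfl hacc2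
    rw [h1] at h2
    have h3 := hG3 (p + p') q (T + q') (by linarith) hq (by linarith)
    have h4 : ph3 (s.A + ((p + p' : ℝ) : ℂ)) (s.B + q) ((T + q' : ℝ) : ℂ) s.m (-I) (-I) =
        arg (s.B + q) + ph2 (s.A + p + p' - s.m ^ 2 / (s.B + q))
          (((T + q' : ℝ) : ℂ) - (-I) ^ 2 / (s.B + q)) (-I - s.m * (-I) / (s.B + q)) := by
      rw [h2]
      push_cast
      rw [← add_assoc]
      rfl
    rw [h4, c1, c2] at h3
    show 0 ≤ s.ph + arg (s.B + q) + ph2 (s.A + p - s.m ^ 2 / (s.B + q) + p')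
      (T + 1 / (s.B + q) + q') (-I + I * s.m / (s.B + q))
    have e1 : s.A + p - s.m ^ 2 / (s.B + q) + p' = s.A + p + p' - s.m ^ 2 / (s.B + q) := by ring
    have e2 : (T : ℂ) + 1 / (s.B + q) + q' = ((T + q' : ℝ) : ℂ) + 1 / (s.B + q) := by
      push_cast
      ring
    rw [e1, e2, add_assoc]
    exact h3
  · intro x hx
    have hx0 := hlt x hx
    constructor
    · intro p' q' hp' hq'
      have hC : 0 < T + q' := by linarith
      have h1 := (N1_elim hPHS hPHE hEV hA2P hACG (s.A + p + p') (s.B + q) s.m (T + q') 1 0 (-I) 0 0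
        (hAq p' hp') hC one_pos rfl reI rfl rfl).2.1
      have h3 := N1_good _ _ _ _ (p + p') q hG (by linarith) hq
      push_cast at h3
      rw [← add_assoc] at h3
      have h5 := (hS1 s.ph _ _ _ (T + q') (hAq p' hp') h3 hC).1
      have h6 : phS (G5 (s.A + p + p') (s.B + q) ((T + q' : ℝ) : ℂ) 1 1 s.m 0 (-I) 0 0 0 0) {0, 1, 2} =
          arg (s.B + q) + ph2 (s.A + p + p' - s.m ^ 2 / (s.B + q))
          (((T + q' : ℝ) : ℂ) - (-I) ^ 2 / (s.B + q)) (0 - s.m * (-I) / (s.B + q)) := by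
        rw [← h1]
        simp only [ofReal_one]
      rw [h6, c1, c3] at h5
      show 0 ≤ s.ph + arg (s.B + q) + ph2 (s.A + p - s.m ^ 2 / (s.B + q) + p')
        (T + 1 / (s.B + q) + q') (-I + I * s.m / (s.B + q) + I)
      have e1 : s.A + p - s.m ^ 2 / (s.B + q) + p' = s.A + p + p' - s.m ^ 2 / (s.B + q) := by ring
      have e2 : (T : ℂ) + 1 / (s.B + q) + q' = ((T + q' : ℝ) : ℂ) + 1 / (s.B + q) := by
        push_cast
        ring
      have e3 : -I + I * s.m / (s.B + q) + I = I * s.m / (s.B + q) := by ring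
      rw [e1, e2, e3, add_assoc]
      exact h5
    · intro p' q' T' hp' hq' hT'
      have hC : 0 < T + q' := by linarith
      have hU : 0 < T' := lt_of_lt_of_le hx0 hT'
      have h1 := (N1_elim hPHS hPHE hEV hA2P hACG (s.A + p + p') (s.B + q) s.m (T + q') T' (-I) (-I)
        (-I) (-I) (hAq p' hp') hC hU reI reI reI reI).2.2
      have h3 := N1_good _ _ _ _ (p + p') q hGI (by linarith) hq
      push_cast at h3
      rw [← add_assoc] at h3
      have h4 := hG3 (p + p') q (T + q') (by linarith) hq (by linarith)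
      have e4 : s.A + ((p + p' : ℝ) : ℂ) = s.A + p + p' := by
        push_cast
        ring
      rw [e4] at h4
      have h5 := ((hS3 s.ph _ _ _ (T + q') T' (hAq p' hp') hC hU).2.2 h3 h4).1
      rw [h1, c1, c2] at h5
      show 0 ≤ s.ph + arg (s.B + q) + ph3 (s.A + p - s.m ^ 2 / (s.B + q) + p')
        (T + 1 / (s.B + q) + q') T' (-I + I * s.m / (s.B + q)) (-I) (-I)
      have e1 : s.A + p - s.m ^ 2 / (s.B + q) + p' = s.A + p + p' - s.m ^ 2 / (s.B + q) := by ring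
      have e2 : (T : ℂ) + 1 / (s.B + q) + q' = ((T + q' : ℝ) : ℂ) + 1 / (s.B + q) := by
        push_cast
        ring
      rw [e1, e2, add_assoc]
      exact h5

end Pool.Agent.MO
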