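import Pool.Agent.helper50.MO.N1

open Complex Finset

namespace Pool.Agent.MO

/-- elimination of `b` in the 2x2 case -/
theorem N2_two (hPHS : PHS_stmt) (hPHE : PHE_stmt) (hEV : EV_stmt) (hA2P : A2P_stmt)
    (A B m : ℂ) (h : Acc2 A B m) : ph2 A B m = arg B + arg (A - m ^ 2 / B) := by
  set F : ℕ → ℕ → ℂ := G5 A B 1 1 1 m 0 0 0 0 0 0 with hF
  have hacc : AccS F {0, 1} := (hA2P.2 F 0 1 (by decide) rfl).2 h
  have e1 := hEV.1 F 0 1 (by decide) rfl hacc
  have i2 : ({0, 1} : Finset ℕ) = insert 1 {0} := by decide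
  obtain ⟨-, -, b2, -⟩ := hPHS F {0} 1 (by decide) (i2 ▸ hacc)
  have e3 := (hPHE.2.1 (sch F 1) 0).1
  have s00 : sch F 1 0 0 = A - m ^ 2 / B := by
    show A - m * m / B = A - m ^ 2 / B
    ring
  rw [i2, b2, e3, s00] at e1
  exact e1.symm

theorem N2 (hPHS : PHS_stmt) (hPHE : PHE_stmt) (hEV : EV_stmt) (hA2P : A2P_stmt)
    (hACG : ACG_stmt) (hS1 : S1_stmt) (hS2 : S2_stmt) : N2_stmt := by
  intro s p q T lt' hA hG hT hp hq hlt
  have reI : (-I : ℂ).re = 0 := by simp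
  have hAq : ∀ p' : ℝ, 0 ≤ p' → Acc2 (s.A + p + p') (s.B + q) s.m := by
    intro p' hp'
    have h1 := N1_incr hA2P _ _ _ (p + p') q hA (by linarith) hq
    push_cast at h1
    rwa [← add_assoc] at h1
  have c1 : ∀ C : ℝ, (C : ℂ) - (0 : ℂ) ^ 2 / (s.B + q) = C := by
    intro C
    simp
  have c2 : (-I : ℂ) - s.m * 0 / (s.B + q) = -I := by simp
  refine ⟨?_, ?_, ?_⟩
  · have h1 := (N1_elim hPHS hPHE hEV hA2P hACG (s.A + p + (0 : ℝ)) (s.B + q) s.m T 1 (-I) 0 0 0
      (hAq 0 le_rfl) hT one_pos reI rfl rfl rfl).1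
    rw [c1, c2, ofReal_zero, add_zero] at h1
    exact h1
  · intro p' q' hp' hq'
    have hC : 0 < T + q' := by linarith
    have h1 := (N1_elim hPHS hPHE hEV hA2P hACG (s.A + p + p') (s.B + q) s.m (T + q') 1 (-I) 0 0 0
      (hAq p' hp') hC one_pos reI rfl rfl rfl).2.1
    have h3 := N1_good _ _ _ _ (p + p') q hG (by linarith) hq
    push_cast at h3
    rw [← add_assoc] at h3
    have h5 := (hS1 s.ph _ _ _ (T + q') (hAq p' hp') h3 hC).2
    have h6 : phS (G5 (s.A + p + p') (s.B + q) ((T + q' : ℝ) : ℂ) 1 1 s.m (-I) 0 0 0 0 0) {0, 1, 2} =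
        arg (s.B + q) + ph2 (s.A + p + p' - s.m ^ 2 / (s.B + q))
        (((T + q' : ℝ) : ℂ) - 0 ^ 2 / (s.B + q)) (-I - s.m * 0 / (s.B + q)) := by
      rw [← h1]
      simp only [ofReal_one]
    rw [h6, c1, c2] at h5
    show 0 ≤ s.ph + arg (s.B + q) + ph2 (s.A + p - s.m ^ 2 / (s.B + q) + p') (T + q') (-I)
    have e1 : s.A + p - s.m ^ 2 / (s.B + q) + p' = s.A + p + p' - s.m ^ 2 / (s.B + q) := by ring
    have e2 : (T : ℂ) + q' = ((T + q' : ℝ) : ℂ) := by push_cast; ring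
    rw [e1, e2, add_assoc]
    exact h5
  · intro x hx
    have hx0 := hlt x hx
    constructor
    · intro p' q' hp' hq'
      have hC : 0 < T + q' := by linarith
      have h1 := hG (p + p') q (by linarith) hq
      have e4 : s.A + ((p + p' : ℝ) : ℂ) = s.A + p + p' := by
        push_cast
        ring
      rw [e4, N2_two hPHS hPHE hEV hA2P _ _ _ (hAq p' hp')] at h1
      show 0 ≤ s.ph + arg (s.B + q) + ph2 (s.A + p - s.m ^ 2 / (s.B + q) + p') (T + q') (-I + I)
      have e1 : s.A + p - s.m ^ 2 / (s.B + q) + p' = s.A + p + p' - s.m ^ 2 / (s.B + q) := by ring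
      have e2 : ph2 (s.A + p + p' - s.m ^ 2 / (s.B + q)) ((T : ℂ) + q') (-I + I) =
          arg (s.A + p + p' - s.m ^ 2 / (s.B + q)) := by
        have e3 : arg ((T : ℂ) + q') = 0 := by
          have : ((T : ℂ) + q') = ((T + q' : ℝ) : ℂ) := by push_cast; ring
          rw [this, arg_ofReal_of_nonneg hC.le]
        rw [ph2, neg_add_cancel]
        simp [e3]
      rw [e1, e2, add_assoc]
      exact h1
    · intro p' q' T' hp' hq' hT'
      have hC : 0 < T + q' := by linarith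
      have hU : 0 < T' := lt_of_lt_of_le hx0 hT'
      have h1 := (N1_elim hPHS hPHE hEV hA2P hACG (s.A + p + p') (s.B + q) s.m (T + q') T' (-I) 0
        (-I) (-I) (hAq p' hp') hC hU reI rfl reI reI).2.2
      have h3 := N1_good _ _ _ _ (p + p') q hG (by linarith) hq
      push_cast at h3
      rw [← add_assoc] at h3
      have h5 := (hS2 s.ph _ _ _ (T + q') T' (hAq p' hp') h3 hC hU).2
      rw [h1, c1, c2] at h5
      show 0 ≤ s.ph + arg (s.B + q) + ph3 (s.A + p - s.m ^ 2 / (s.B + q) + p')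
        (T + q') T' (-I) (-I) (-I)
      have e1 : s.A + p - s.m ^ 2 / (s.B + q) + p' = s.A + p + p' - s.m ^ 2 / (s.B + q) := by ring
      have e2 : (T : ℂ) + q' = ((T + q' : ℝ) : ℂ) := by push_cast; ring
      rw [e1, e2, add_assoc]
      exact h5

end Pool.Agent.MO
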